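import Pool.Agent.Run7.h630.QW.Defs

/-!
# Piece K3 of the project QW (helper630): the two-point function is bounded
-/

set_option autoImplicit false

open MeasureTheory Filter Topology

namespace Run7.h624.QW

open Run7.h4.YM Run7.h630.WL Run7.h630.QF Run7.h630.QW

noncomputable section

lemma int_exp_abs {c : ℝ} (hc : 0 < c) : Integrable (fun p : ℝ => Real.exp (-(c * |p|))) := by
  have h1 : IntegrableOn (fun p : ℝ => Real.exp (-(c * |p|))) (Set.Ioi 0) := by
    refine (exp_neg_integrableOn_Ioi 0 hc).congr_fun ?_ measurableSet_Ioi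
    intro p hp
    have : 0 < p := hp
    show Real.exp (-c * p) = Real.exp (-(c * |p|))
    rw [abs_of_pos this, neg_mul]
  have h2 : IntegrableOn (fun p : ℝ => Real.exp (-(c * |p|))) (Set.Iic 0) := by
    have h3 : IntegrableOn (fun p : ℝ => (fun q => Real.exp (-(c * |q|))) (-p)) (Set.Iio 0) := by
      have h4 := (integrableOn_Ici_iff_integrableOn_Ioi).2 h1
      exact (IntegrableOn.comp_neg_Iio (f := fun q : ℝ => Real.exp (-(c * |q|))) (c := 0)
        (by rw [neg_zero]; exact h1))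
    rw [integrableOn_Iic_iff_integrableOn_Iio]
    refine h3.congr_fun ?_ measurableSet_Iio
    intro p _
    show Real.exp (-(c * |(-p)|)) = Real.exp (-(c * |p|))
    rw [abs_neg]
  have h5 := h2.union h1
  rwa [Set.Iic_union_Ioi, integrableOn_univ] at h5

lemma summable_exp_abs {c : ℝ} (hc : 0 < c) (a : ℝ) :
    Summable (fun n : ℤ => Real.exp (-(c * |(n : ℝ) - a|))) := by
  have hr : Real.exp (-c) < 1 := by
    have h5 := Real.exp_lt_exp.2 (show -c < 0 by linarith)
    rwa [Real.exp_zero] at h5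
  have h0 : Summable (fun n : ℤ => Real.exp (-(c * |(n : ℝ)|))) := by
    apply Summable.of_nat_of_neg
    · refine (summable_geometric_of_lt_one (Real.exp_pos _).le hr).congr fun n => ?_
      rw [← Real.exp_nat_mul]
      congr 1
      push_cast
      rw [abs_of_nonneg (Nat.cast_nonneg n)]
      ring
    · refine (summable_geometric_of_lt_one (Real.exp_pos _).le hr).congr fun n => ?_
      rw [← Real.exp_nat_mul]
      congr 1
      push_cast
      rw [abs_neg, abs_of_nonneg (Nat.cast_nonneg n)]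
      ring
  refine Summable.of_nonneg_of_le (fun n => (Real.exp_pos _).le) (fun n => ?_)
    (h0.mul_left (Real.exp (c * |a|)))
  rw [← Real.exp_add]
  refine Real.exp_le_exp.2 ?_
  have h1 : |(n : ℝ)| ≤ |(n : ℝ) - a| + |a| := by
    have := abs_add_le ((n : ℝ) - a) a
    rwa [sub_add_cancel] at this
  nlinarith

lemma abs_le_freq {N k : ℕ} (j : Ix N) (p : ℝ) :
    |p| ≤ freq N k j p ∧ |mom N k j 2| ≤ freq N k j p ∧ |mom N k j 3| ≤ freq N k j p := by
  unfold freq
  refine ⟨Real.abs_le_sqrt ?_, Real.abs_le_sqrt ?_, Real.abs_le_sqrt ?_⟩ <;>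
  nlinarith [sq_nonneg p, sq_nonneg (mom N k j 2), sq_nonneg (mom N k j 3)]

lemma freq_nonneg {N k : ℕ} (j : Ix N) (p : ℝ) : 0 ≤ freq N k j p := Real.sqrt_nonneg _

lemma norm_sym_le {N k : ℕ} (j : Ix N) (p : ℝ) (i : Fin 4) : ‖sym N k j p i‖ ≤ freq N k j p := by
  obtain ⟨h1, h2, h3⟩ := abs_le_freq (k := k) j p
  have h0 := freq_nonneg (k := k) j p
  fin_cases i
  · show ‖-(freq N k j p : ℂ)‖ ≤ _
    rw [norm_neg, Complex.norm_real, Real.norm_eq_abs, abs_of_nonneg h0]
  · show ‖Complex.I * (p : ℂ)‖ ≤ _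
    rw [norm_mul, Complex.norm_I, one_mul, Complex.norm_real]
    exact h1
  · show ‖Complex.I * (mom N k j 2 : ℂ)‖ ≤ _
    rw [norm_mul, Complex.norm_I, one_mul, Complex.norm_real]
    exact h2
  · show ‖Complex.I * (mom N k j 3 : ℂ)‖ ≤ _
    rw [norm_mul, Complex.norm_I, one_mul, Complex.norm_real]
    exact h3

lemma norm_ite_le {P : Prop} [Decidable P] {z : ℂ} {w : ℝ} (hw : 0 ≤ w) (h : ‖z‖ ≤ w) :
    ‖if P then z else 0‖ ≤ w := by
  split_ifs
  · exact h
  · simpa using hw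

lemma norm_tn_le {f g : Fin 4 → ℂ} {w : ℝ} (hf : ∀ i, ‖f i‖ ≤ w) (hg : ∀ i, ‖g i‖ ≤ w)
    (i j i' j' : Fin 4) : ‖tn f g i j i' j'‖ ≤ 4 * w ^ 2 := by
  have hw : 0 ≤ w := (norm_nonneg _).trans (hf 0)
  have h : ∀ a b, ‖f a * g b‖ ≤ w ^ 2 := by
    intro a b
    rw [norm_mul, pow_two]
    exact mul_le_mul (hf a) (hg b) (norm_nonneg _) hw
  have hw2 : 0 ≤ w ^ 2 := sq_nonneg w
  unfold tn
  have h1 := norm_ite_le (P := j = j') hw2 (h i i')
  have h2 := norm_ite_le (P := j = i') hw2 (h i j')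
  have h3 := norm_ite_le (P := i = j') hw2 (h j i')
  have h4 := norm_ite_le (P := i = i') hw2 (h j j')
  refine (norm_add_le _ _).trans ?_
  refine (add_le_add_left (norm_sub_le _ _) _).trans ?_
  have h5 := norm_sub_le (if j = j' then f i * g i' else 0) (if j = i' then f i * g j' else 0)
  linarith

/-- the bound of the integrand -/
lemma integrand_le {N k : ℕ} (j : Ix N) (a b c d : Fin 4) {δ : ℝ} (hδ : 0 < δ) {z : Fin 4 → ℝ}
    (hz : δ ≤ z 0) (p : ℝ) :
    ‖Complex.exp (Complex.I * ((p * z 1 + mom N k j 2 * z 2 + mom N k j 3 * z 3 : ℝ) : ℂ) -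
      ((freq N k j p * z 0 : ℝ) : ℂ)) / ((4 * Real.pi * freq N k j p : ℝ) : ℂ) *
        tn (sym N k j p) (fun i => -sym N k j p i) a b c d‖ ≤
      (2 / δ * (Real.exp (-(δ / 4 * |mom N k j 2|)) * Real.exp (-(δ / 4 * |mom N k j 3|)))) *
        Real.exp (-(δ / 4 * |p|)) := by
  have hw := freq_nonneg (k := k) j p
  set w := freq N k j p with hwdef
  have htn : ‖tn (sym N k j p) (fun i => -sym N k j p i) a b c d‖ ≤ 4 * w ^ 2 :=
    norm_tn_le (norm_sym_le j p) (fun i => by rw [norm_neg]; exact norm_sym_le j p i) a b c d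
  have hexp : ‖Complex.exp (Complex.I * ((p * z 1 + mom N k j 2 * z 2 + mom N k j 3 * z 3 : ℝ) : ℂ) -
      ((w * z 0 : ℝ) : ℂ))‖ = Real.exp (-(w * z 0)) := by
    rw [Complex.norm_exp]
    congr 1
    rw [Complex.sub_re, Complex.mul_re, Complex.I_re, Complex.I_im, Complex.ofReal_re,
      Complex.ofReal_im, Complex.ofReal_re]
    ring
  rw [norm_mul, norm_div, hexp, Complex.norm_real, Real.norm_eq_abs,
    abs_of_nonneg (by positivity : 0 ≤ 4 * Real.pi * w)]
  have h1 : Real.exp (-(w * z 0)) / (4 * Real.pi * w) *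
      ‖tn (sym N k j p) (fun i => -sym N k j p i) a b c d‖ ≤ w * Real.exp (-(w * δ)) := by
    have he : Real.exp (-(w * z 0)) ≤ Real.exp (-(w * δ)) :=
      Real.exp_le_exp.2 (by nlinarith)
    rcases hw.eq_or_lt with h0 | h0
    · rw [← h0]
      simp
    · have hpi := Real.pi_gt_three
      calc Real.exp (-(w * z 0)) / (4 * Real.pi * w) *
            ‖tn (sym N k j p) (fun i => -sym N k j p i) a b c d‖
          ≤ Real.exp (-(w * δ)) / (4 * 1 * w) * (4 * w ^ 2) := by
            gcongr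
            linarith
        _ = w * Real.exp (-(w * δ)) := by
            field_simp
  refine h1.trans ?_
  have h2 : w * Real.exp (-(w * δ)) ≤ 2 / δ * Real.exp (-(w * (δ / 2))) := by
    have h3 : w * (δ / 2) ≤ Real.exp (w * (δ / 2)) := by
      have := Real.add_one_le_exp (w * (δ / 2))
      linarith
    have h4 : Real.exp (-(w * δ)) = Real.exp (-(w * (δ / 2))) * Real.exp (-(w * (δ / 2))) := by
      rw [← Real.exp_add]
      congr 1
      ring
    have h5 : w * (δ / 2) * Real.exp (-(w * (δ / 2))) ≤ 1 := by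
      calc w * (δ / 2) * Real.exp (-(w * (δ / 2)))
          ≤ Real.exp (w * (δ / 2)) * Real.exp (-(w * (δ / 2))) := by gcongr
        _ = 1 := by
          rw [← Real.exp_add]
          simp
    rw [h4]
    calc w * (Real.exp (-(w * (δ / 2))) * Real.exp (-(w * (δ / 2))))
        = 2 / δ * (w * (δ / 2) * Real.exp (-(w * (δ / 2)))) * Real.exp (-(w * (δ / 2))) := by
          field_simp
      _ ≤ 2 / δ * 1 * Real.exp (-(w * (δ / 2))) := by gcongr
      _ = 2 / δ * Real.exp (-(w * (δ / 2))) := by ring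
  refine h2.trans ?_
  rw [mul_assoc]
  gcongr
  rw [← Real.exp_add, ← Real.exp_add]
  refine Real.exp_le_exp.2 ?_
  have hsum : |p| + |mom N k j 2| + |mom N k j 3| ≤ 2 * w := by
    rw [hwdef]
    unfold freq
    have h6 : 2 * Real.sqrt (p ^ 2 + mom N k j 2 ^ 2 + mom N k j 3 ^ 2) =
        Real.sqrt (4 * (p ^ 2 + mom N k j 2 ^ 2 + mom N k j 3 ^ 2)) := by
      rw [Real.sqrt_mul (by norm_num), show (4 : ℝ) = 2 ^ 2 by norm_num, Real.sqrt_sq (by norm_num)]
    rw [h6]
    refine Real.le_sqrt_of_sq_le ?_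
    rw [← sq_abs p, ← sq_abs (mom N k j 2), ← sq_abs (mom N k j 3)]
    nlinarith [sq_nonneg (|p| - |mom N k j 2|), sq_nonneg (|p| - |mom N k j 3|),
      sq_nonneg (|mom N k j 2| - |mom N k j 3|), sq_nonneg (|p|), sq_nonneg (|mom N k j 2|),
      sq_nonneg (|mom N k j 3|)]
  nlinarith

/-- the two-point function is bounded -/
theorem K3_core (N k : ℕ) (α : Fin N × Fin N) (a b c d : Fin 4) (δ : ℝ) (hδ : 0 < δ) :
    ∃ B : ℝ, ∀ z : Fin 4 → ℝ, δ ≤ z 0 → ‖twoPoint N k α a b c d z‖ ≤ B := by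
  have hpi := Real.pi_gt_three
  set u2 : ℝ := k * ((α.2 : ℕ) : ℝ) / N with hu2
  set u3 : ℝ := -(k * ((α.1 : ℕ) : ℝ) / N) with hu3
  have hc : 0 < δ / 4 * (2 * Real.pi) := by positivity
  have s2 := summable_exp_abs hc u2
  have s3 := summable_exp_abs hc u3
  set I0 : ℝ := ∫ p : ℝ, Real.exp (-(δ / 4 * |p|)) with hI0
  have hs : Summable (fun n : ℤ × ℤ => (2 / δ * (Real.exp (-(δ / 4 * |mom N k (α, n) 2|)) *
      Real.exp (-(δ / 4 * |mom N k (α, n) 3|)))) * I0) := by
    have h1 : Summable (fun n : ℤ × ℤ => Real.exp (-(δ / 4 * (2 * Real.pi) * |(n.1 : ℝ) - u2|)) *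
        Real.exp (-(δ / 4 * (2 * Real.pi) * |(n.2 : ℝ) - u3|))) :=
      s2.mul_of_nonneg s3 (fun _ => (Real.exp_pos _).le) (fun _ => (Real.exp_pos _).le)
    refine ((h1.mul_left (2 / δ)).mul_right I0).congr fun n => ?_
    have h2 : |mom N k (α, n) 2| = 2 * Real.pi * |(n.1 : ℝ) - u2| := by
      show |2 * Real.pi * ((n.1 : ℝ) - k * ((α.2 : ℕ) : ℝ) / N)| = _
      rw [abs_mul, abs_of_pos (by positivity : 0 < 2 * Real.pi)]
    have h3 : |mom N k (α, n) 3| = 2 * Real.pi * |(n.2 : ℝ) - u3| := by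
      show |2 * Real.pi * ((n.2 : ℝ) + k * ((α.1 : ℕ) : ℝ) / N)| = _
      rw [abs_mul, abs_of_pos (by positivity : 0 < 2 * Real.pi), hu3, sub_neg_eq_add]
    rw [h2, h3]
    simp only [mul_assoc]
  refine ⟨_, fun z hz => tsum_of_norm_bounded hs.hasSum fun n => ?_⟩
  rw [hI0, ← integral_const_mul]
  exact norm_integral_le_of_norm_le ((int_exp_abs (by positivity)).const_mul _)
    (Eventually.of_forall fun p => integrand_le (α, n) a b c d hδ hz p)

end

end Run7.h624.QW
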