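import Pool.Agent.Run7.h630.QW.Iface
import Pool.Agent.Run7.h624.QW.K3c

/-! MP_7f377f_mp, piece K3 (helper624): the statement `S_K3` of the QW interface, from `K3_core`. -/

namespace Run7.h624.QW

open Run7.h630.QW

theorem t_K3 : S_K3 := fun N k _ _ α _ i j i' j' δ hδ => K3_core N k α i j i' j' δ hδ

end Run7.h624.QW
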